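import Mathlib

set_option autoImplicit false
set_option linter.unusedSectionVars false

/-!
# Fixed vectors of p-groups in the spaces of solutions modulo p, and orbits of Sylow subgroups
-/

namespace Pool.Agent.CMTP

open Finset MulAction
open scoped BigOperators

section fix

variable {X : Type} [Fintype X]

/-- dividing a non-zero integral solution by `p` as often as possible -/
theorem exists_reduced (p : ℕ) (hp : p.Prime) (A : Set (X → ℤ)) :
    ∀ (N : ℕ) (f : X → ℤ), ∑ x, (f x).natAbs = N → f ≠ 0 →
      (∀ a ∈ A, ∑ x, a x * f x = 0) →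
      ∃ g : X → ℤ, (∃ x, ¬ (p : ℤ) ∣ g x) ∧ ∀ a ∈ A, ∑ x, a x * g x = 0 := by
  intro N
  induction N using Nat.strong_induction_on with
  | _ N ih =>
    intro f hN hf h
    by_cases hd : ∃ x, ¬ (p : ℤ) ∣ f x
    · exact ⟨f, hd, h⟩
    · push Not at hd
      choose g hg using hd
      have hp1 : 1 < p := hp.one_lt
      have hg0 : g ≠ 0 := by
        intro h0
        apply hf
        funext x
        rw [hg x, h0]
        simp
      have hlt : ∑ x, (g x).natAbs < N := by
        rw [← hN]
        have h1 : ∀ x, (f x).natAbs = p * (g x).natAbs := by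
          intro x
          rw [hg x, Int.natAbs_mul, Int.natAbs_natCast]
        apply Finset.sum_lt_sum
        · intro x _
          rw [h1]
          exact Nat.le_mul_of_pos_left _ hp.pos
        · obtain ⟨x, hx⟩ := Function.ne_iff.1 hg0
          refine ⟨x, Finset.mem_univ _, ?_⟩
          rw [h1]
          have h2 : 0 < (g x).natAbs := Int.natAbs_pos.2 hx
          nlinarith
      refine ih _ hlt g rfl hg0 ?_
      intro a ha
      have h2 := h a ha
      have h3 : ∑ x, a x * f x = (p : ℤ) * ∑ x, a x * g x := by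
        rw [Finset.mul_sum]
        refine Finset.sum_congr rfl fun x _ => ?_
        rw [hg x]
        ring
      rw [h3] at h2
      rcases mul_eq_zero.1 h2 with h4 | h4
      · exfalso
        have : (p : ℤ) ≠ 0 := by exact_mod_cast hp.ne_zero
        exact this h4
      · exact h4

/-- the solutions modulo `p` -/
def Sol (p : ℕ) (A : Set (X → ℤ)) : AddSubgroup (X → ZMod p) where
  carrier := {s | ∀ a ∈ A, ∑ x, (a x : ZMod p) * s x = 0}
  add_mem' := by
    intro s t hs ht a ha
    simp only [Pi.add_apply, mul_add, Finset.sum_add_distrib]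
    rw [hs a ha, ht a ha, add_zero]
  zero_mem' := by
    intro a _
    simp
  neg_mem' := by
    intro s hs a ha
    simp only [Pi.neg_apply, mul_neg, Finset.sum_neg_distrib]
    rw [hs a ha, neg_zero]

/-- **Key lemma.** If an integral vector `f` which is not zero is orthogonal to a family of
weights that is stable under a `p`-group `P` of permutations, then a vector modulo `p`, invariant
under `P` and not zero, is orthogonal to the family. -/
theorem exists_fixed (p : ℕ) [hp : Fact p.Prime] (P : Subgroup (Equiv.Perm X)) (hP : IsPGroup p P)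
    (A : Set (X → ℤ)) (hA : ∀ a ∈ A, ∀ h ∈ P, (fun x => a (h x)) ∈ A) (f : X → ℤ) (hf : f ≠ 0)
    (h : ∀ a ∈ A, ∑ x, a x * f x = 0) :
    ∃ s : X → ZMod p, s ≠ 0 ∧ (∀ g ∈ P, ∀ x, s (g x) = s x) ∧
      ∀ a ∈ A, ∑ x, (a x : ZMod p) * s x = 0 := by
  classical
  obtain ⟨g, ⟨x0, hx0⟩, hg⟩ := exists_reduced p hp.out A _ f rfl hf h
  -- the reduction of `g`
  let s0 : X → ZMod p := fun x => (g x : ZMod p)
  have hs0 : s0 ∈ Sol p A := by
    intro a ha
    have := congrArg (fun t : ℤ => (t : ZMod p)) (hg a ha)
    push_cast at this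
    exact this
  have hs0' : s0 ≠ 0 := by
    intro h0
    apply hx0
    have := congrFun h0 x0
    simp only [s0, Pi.zero_apply] at this
    exact (ZMod.intCast_zmod_eq_zero_iff_dvd _ _).1 this
  let act : MulAction P (Sol p A) :=
    { smul := fun k s => ⟨fun x => s.1 ((k⁻¹ : P).1 x), by
        intro a ha
        have h1 := s.2 _ (hA a ha k.1 k.2)
        rw [← h1]
        refine (Fintype.sum_equiv (k.1 : Equiv.Perm X) _ _ fun x => ?_).symm
        have h2 : ((k⁻¹ : P) : Equiv.Perm X) (k.1 x) = x := by
          simp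
        show _ = (a (k.1 x) : ZMod p) * s.1 (((k⁻¹ : P) : Equiv.Perm X) (k.1 x))
        rw [h2]⟩
      one_smul := by
        intro s
        apply Subtype.ext
        funext x
        show s.1 (((1 : P)⁻¹ : P).1 x) = s.1 x
        simp
      mul_smul := by
        intro k l s
        apply Subtype.ext
        funext x
        show s.1 (((k * l)⁻¹ : P).1 x) = s.1 ((l⁻¹ : P).1 ((k⁻¹ : P).1 x))
        simp [mul_inv_rev] }
  have hcard : p ∣ Nat.card (Sol p A) := by
    let s1 : Sol p A := ⟨s0, hs0⟩
    have h1 : addOrderOf s1 = p := by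
      apply addOrderOf_eq_prime
      · apply Subtype.ext
        funext x
        show (p • s1 : Sol p A).1 x = 0
        rw [AddSubgroup.coe_nsmul]
        simp
      · intro h2
        exact hs0' (congrArg Subtype.val h2)
    have h3 : addOrderOf s1 ∣ Nat.card (Sol p A) := addOrderOf_dvd_natCard s1
    rwa [h1] at h3
  have hzero : (0 : Sol p A) ∈ fixedPoints P (Sol p A) := by
    intro k
    apply Subtype.ext
    funext x
    rfl
  obtain ⟨b, hb, hb0⟩ := hP.exists_fixed_point_of_prime_dvd_card_of_fixed_point (Sol p A) hcard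
    hzero
  refine ⟨b.1, ?_, ?_, b.2⟩
  · intro h0
    apply hb0
    apply Subtype.ext
    exact h0.symm
  · intro k hk x
    have h1 := congrArg (fun t : Sol p A => t.1 (k x)) (hb ⟨k, hk⟩)
    have h2 : b.1 (((⟨k, hk⟩ : P)⁻¹ : P).1 (k x)) = b.1 (k x) := h1
    have h3 : ((⟨k, hk⟩ : P)⁻¹ : P).1 (k x) = x := by
      show (k⁻¹ : Equiv.Perm X) (k x) = x
      simp
    rw [h3] at h2
    exact h2.symm

end fix

section sylow

variable {H : Type} [Group H] [Finite H] {Y : Type} [MulAction H Y] [Finite Y]

/-- orbits of a Sylow subgroup of a transitive group -/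
theorem sylow_orbit_dvd (p : ℕ) [hp : Fact p.Prime] (n : ℕ) (hY : p ^ n ∣ Nat.card Y)
    (ht : IsPretransitive H Y) (P : Sylow p H) (y : Y) : p ^ n ∣ Nat.card (orbit P y) := by
  classical
  have hcO : Nat.card (orbit P y) * Nat.card (stabilizer P y) = Nat.card P := by
    have := Fintype.ofFinite P
    have := Fintype.ofFinite (orbit P y)
    have := Fintype.ofFinite (stabilizer P y)
    rw [Nat.card_eq_fintype_card, Nat.card_eq_fintype_card, Nat.card_eq_fintype_card]
    exact card_orbit_mul_card_stabilizer_eq_card_group P y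
  have hcY : Nat.card Y * Nat.card (stabilizer H y) = Nat.card H := by
    have := Fintype.ofFinite H
    have := Fintype.ofFinite (orbit H y)
    have := Fintype.ofFinite (stabilizer H y)
    have h1 := card_orbit_mul_card_stabilizer_eq_card_group H y
    have h2 : Nat.card Y = Nat.card (orbit H y) := by
      rw [orbit_eq_univ H y]
      exact (Nat.card_congr (Equiv.Set.univ Y)).symm
    rw [h2, Nat.card_eq_fintype_card, Nat.card_eq_fintype_card, Nat.card_eq_fintype_card]
    exact h1
  -- the stabilizer in `P` has order `p ^ a`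
  obtain ⟨a, ha⟩ := IsPGroup.iff_card.1 (P.2.to_subgroup (stabilizer P y))
  have hdvd : Nat.card (stabilizer P y) ∣ Nat.card (stabilizer H y) := by
    let φ : stabilizer P y →* stabilizer H y :=
      { toFun := fun k => ⟨(k.1 : H), k.2⟩
        map_one' := rfl
        map_mul' := fun _ _ => rfl }
    refine Subgroup.card_dvd_of_injective φ ?_
    intro k l h
    have h1 : ((φ k).1 : H) = ((φ l).1 : H) := by rw [h]
    exact Subtype.ext (Subtype.ext h1)
  have h1 : p ^ (n + a) ∣ Nat.card H := by
    rw [pow_add, ← hcY]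
    refine mul_dvd_mul hY ?_
    rw [← ha]
    exact hdvd
  have h2 : n + a ≤ (Nat.card H).factorization p :=
    (hp.out.pow_dvd_iff_le_factorization Nat.card_pos.ne').1 h1
  have h3 : Nat.card P = p ^ (Nat.card H).factorization p := P.card_eq_multiplicity
  rw [h3, ha] at hcO
  have h4 : Nat.card (orbit P y) * p ^ a = p ^ ((Nat.card H).factorization p - a) * p ^ a := by
    rw [hcO, ← pow_add]
    congr 1
    omega
  have h5 := Nat.eq_of_mul_eq_mul_right (pow_pos hp.out.pos a) h4
  rw [h5]
  exact pow_dvd_pow p (by omega)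

/-- a Sylow subgroup of a transitive group of prime power degree is transitive -/
theorem sylow_transitive (p : ℕ) [hp : Fact p.Prime] (n : ℕ) (hY : Nat.card Y = p ^ n)
    (ht : IsPretransitive H Y) (P : Sylow p H) (x y : Y) : ∃ k ∈ P, k • x = y := by
  classical
  have h1 := sylow_orbit_dvd p n (by rw [hY]) ht P x
  have h2 : Nat.card Y ≤ Nat.card (orbit P x) := by
    rw [hY]
    refine Nat.le_of_dvd ?_ h1
    have : Nonempty (orbit P x) := ⟨⟨x, mem_orbit_self x⟩⟩
    exact Nat.card_pos
  have h3 : (orbit P x) = Set.univ := by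
    apply Set.eq_of_subset_of_ncard_le (Set.subset_univ _) _ (Set.toFinite _)
    rw [Set.ncard_univ]
    exact h2
  have h4 : y ∈ orbit P x := by
    rw [h3]
    trivial
  obtain ⟨k, hk⟩ := h4
  exact ⟨k.1, k.2, hk⟩

end sylow

end Pool.Agent.CMTP
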