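import Mathlib
import Pool.Agent.CMTP.Fix

set_option autoImplicit false
set_option linter.unusedSectionVars false

/-!
# Non-degenerate half systems for transitive groups of degree `2 p ^ n`
-/

namespace Pool.Agent.CMTP

open Finset MulAction
open scoped BigOperators

variable {X : Type} [Fintype X]

/-- a finite set which contains exactly one point of each pair -/
def HalfX (ρ : X → X) (Φ : Finset X) : Prop := ∀ x, x ∈ Φ ↔ ρ x ∉ Φ

/-- non-degenerate half systems -/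
def NDeg (H : Subgroup (Equiv.Perm X)) (ρ : X → X) (Φ : Finset X) : Prop :=
  ∀ f : X → ℤ, (∀ x, f (ρ x) = - f x) → (∀ h ∈ H, ∑ x ∈ Φ, f (h x) = 0) → f = 0

open Classical in
/-- the family of weights: translates of a set by `H`, and the weights that express oddness -/
def Fam (H : Subgroup (Equiv.Perm X)) (ρ : X → X) (D : Finset X) : Set (X → ℤ) :=
  {a | (∃ h ∈ H, a = fun x => if (h⁻¹ : Equiv.Perm X) x ∈ D then 1 else 0) ∨
    ∃ y, a = fun x => (if x = y then 1 else 0) + (if x = ρ y then 1 else 0)}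

theorem sum_translate (D : Finset X) (h : Equiv.Perm X) (f : X → ℤ) [DecidableEq X] :
    ∑ x, (if (h⁻¹ : Equiv.Perm X) x ∈ D then 1 else 0) * f x = ∑ x ∈ D, f (h x) := by
  have h1 : ∑ x, (if (h⁻¹ : Equiv.Perm X) x ∈ D then 1 else 0) * f x =
      ∑ x, (if x ∈ D then 1 else 0) * f (h x) := by
    refine (Fintype.sum_equiv h _ _ fun x => ?_).symm
    simp
  rw [h1]
  simp

theorem fam_orth (H : Subgroup (Equiv.Perm X)) (ρ : X → X) (D : Finset X) (f : X → ℤ)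
    (hodd : ∀ x, f (ρ x) = - f x) (hsol : ∀ h ∈ H, ∑ x ∈ D, f (h x) = 0) :
    ∀ a ∈ Fam H ρ D, ∑ x, a x * f x = 0 := by
  classical
  rintro a (⟨h, hh, rfl⟩ | ⟨y, rfl⟩)
  · have := sum_translate D h f
    convert hsol h hh using 1
  · simp only [add_mul, Finset.sum_add_distrib]
    simp [hodd]

theorem fam_stable (H P : Subgroup (Equiv.Perm X)) (hPH : P ≤ H) (ρ : X → X)
    (hρ : ∀ h ∈ H, ∀ x, ρ (h x) = h (ρ x)) (D : Finset X) :
    ∀ a ∈ Fam H ρ D, ∀ g ∈ P, (fun x => a (g x)) ∈ Fam H ρ D := by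
  classical
  rintro a (⟨h, hh, rfl⟩ | ⟨y, rfl⟩) g hg
  · left
    refine ⟨g⁻¹ * h, H.mul_mem (H.inv_mem (hPH hg)) hh, ?_⟩
    funext x
    simp [mul_inv_rev]
  · right
    refine ⟨(g⁻¹ : Equiv.Perm X) y, ?_⟩
    funext x
    have h1 : (g x = y) ↔ (x = (g⁻¹ : Equiv.Perm X) y) := by
      rw [Equiv.Perm.eq_inv_iff_eq]
    have h2 : (g x = ρ y) ↔ (x = ρ ((g⁻¹ : Equiv.Perm X) y)) := by
      rw [hρ _ (H.inv_mem (hPH hg)), Equiv.Perm.eq_inv_iff_eq]
    simp only [h1, h2]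

/-- the conclusion of the key lemma for the family `Fam` -/
theorem fam_fixed (p : ℕ) [hp : Fact p.Prime] (H P : Subgroup (Equiv.Perm X)) (hPH : P ≤ H)
    (hP : IsPGroup p P) (ρ : X → X) (hρ : ∀ h ∈ H, ∀ x, ρ (h x) = h (ρ x)) (D : Finset X)
    (f : X → ℤ) (hf : f ≠ 0) (hodd : ∀ x, f (ρ x) = - f x)
    (hsol : ∀ h ∈ H, ∑ x ∈ D, f (h x) = 0) :
    ∃ s : X → ZMod p, s ≠ 0 ∧ (∀ g ∈ P, ∀ x, s (g x) = s x) ∧ (∀ x, s (ρ x) = - s x) ∧
      ∑ x ∈ D, s x = 0 := by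
  classical
  obtain ⟨s, h0, h1, h2⟩ := exists_fixed p P hP (Fam H ρ D) (fam_stable H P hPH ρ hρ D) f hf
    (fam_orth H ρ D f hodd hsol)
  refine ⟨s, h0, h1, ?_, ?_⟩
  · intro y
    have h3 := h2 _ (Or.inr ⟨y, rfl⟩)
    push_cast at h3
    simp only [add_mul, Finset.sum_add_distrib, ite_mul, one_mul, zero_mul,
      Finset.sum_ite_eq', Finset.mem_univ, if_true] at h3
    linear_combination h3
  · have h3 := h2 _ (Or.inl ⟨1, H.one_mem, rfl⟩)
    simp only [inv_one, Equiv.Perm.coe_one, id] at h3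
    rw [← h3]
    simp

/-! ### Odd primes -/

theorem half_sdiff (ρ : X → X) (hρρ : ∀ x, ρ (ρ x) = x) [DecidableEq X] {Φ Ψ : Finset X}
    (hΦ : HalfX ρ Φ) (hΨ : HalfX ρ Ψ) : Ψ \ Φ = (Φ \ Ψ).image ρ := by
  ext x
  simp only [Finset.mem_sdiff, Finset.mem_image]
  constructor
  · rintro ⟨h1, h2⟩
    refine ⟨ρ x, ⟨?_, ?_⟩, hρρ x⟩
    · by_contra h3
      exact h2 ((hΦ x).2 h3)
    · exact (hΨ x).1 h1
  · rintro ⟨y, ⟨h1, h2⟩, rfl⟩
    refine ⟨?_, (hΦ y).1 h1⟩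
    by_contra h3
    exact h2 ((hΨ y).2 h3)

theorem half_sum (ρ : X → X) (hρρ : ∀ x, ρ (ρ x) = x) [DecidableEq X] {Φ Ψ : Finset X}
    (hΦ : HalfX ρ Φ) (hΨ : HalfX ρ Ψ) {R : Type} [AddCommGroup R] (f : X → R)
    (hodd : ∀ x, f (ρ x) = - f x) :
    ∑ x ∈ Φ, f x - ∑ x ∈ Ψ, f x = (2 : ℕ) • ∑ x ∈ Φ \ Ψ, f x := by
  have h1 : ∑ x ∈ Φ, f x = ∑ x ∈ Φ \ Ψ, f x + ∑ x ∈ Φ ∩ Ψ, f x := by
    rw [← Finset.sum_sdiff (Finset.inter_subset_left : Φ ∩ Ψ ⊆ Φ), Finset.sdiff_inter_self_left]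
  have h2 : ∑ x ∈ Ψ, f x = ∑ x ∈ Ψ \ Φ, f x + ∑ x ∈ Φ ∩ Ψ, f x := by
    rw [← Finset.sum_sdiff (Finset.inter_subset_right : Φ ∩ Ψ ⊆ Ψ), Finset.sdiff_inter_self_right]
  have h3 : ∑ x ∈ Ψ \ Φ, f x = - ∑ x ∈ Φ \ Ψ, f x := by
    rw [half_sdiff ρ hρρ hΦ hΨ, Finset.sum_image, ← Finset.sum_neg_distrib]
    · exact Finset.sum_congr rfl fun x _ => hodd x
    · intro x _ y _ h
      rw [← hρρ x, h, hρρ]
  rw [h1, h2, h3, two_nsmul]
  abel

theorem half_card (ρ : X → X) (hρρ : ∀ x, ρ (ρ x) = x) [DecidableEq X] {Φ Ψ : Finset X}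
    (hΦ : HalfX ρ Φ) (hΨ : HalfX ρ Ψ) : Φ.card = Ψ.card := by
  have h1 : (Ψ \ Φ).card = (Φ \ Ψ).card := by
    rw [half_sdiff ρ hρρ hΦ hΨ, Finset.card_image_of_injective]
    intro x y h
    rw [← hρρ x, h, hρρ]
  have h2 := Finset.card_sdiff_add_card_inter Φ Ψ
  have h3 := Finset.card_sdiff_add_card_inter Ψ Φ
  rw [Finset.inter_comm] at h3
  omega

theorem half_card_eq (ρ : X → X) (hρρ : ∀ x, ρ (ρ x) = x) [DecidableEq X] {Φ : Finset X}
    (hΦ : HalfX ρ Φ) : 2 * Φ.card = Fintype.card X := by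
  have h1 : Finset.univ = Φ ∪ Φ.image ρ := by
    ext x
    simp only [Finset.mem_univ, Finset.mem_union, Finset.mem_image, true_iff]
    by_cases hx : x ∈ Φ
    · exact Or.inl hx
    · right
      refine ⟨ρ x, ?_, hρρ x⟩
      by_contra h3
      exact hx ((hΦ x).2 h3)
  have h2 : Disjoint Φ (Φ.image ρ) := by
    rw [Finset.disjoint_left]
    intro x hx hx2
    obtain ⟨y, hy, rfl⟩ := Finset.mem_image.1 hx2
    exact ((hΦ y).1 hy) hx
  rw [← Finset.card_univ, h1, Finset.card_union_of_disjoint h2, Finset.card_image_of_injective]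
  · ring
  · intro x y h
    rw [← hρρ x, h, hρρ]

/-- Non-degeneracy from a `p`-group with two orbits. -/
theorem ndeg_of_orbit (p n : ℕ) [hp : Fact p.Prime] (hp2 : p ≠ 2) (hn : 1 ≤ n)
    (hX : Fintype.card X = 2 * p ^ n) (H P : Subgroup (Equiv.Perm X)) (hPH : P ≤ H)
    (hP : IsPGroup p P) (ρ : X → X) (hρρ : ∀ x, ρ (ρ x) = x)
    (hρ : ∀ h ∈ H, ∀ x, ρ (h x) = h (ρ x)) [DecidableEq X] (O : Finset X) (hO : HalfX ρ O)
    (htr : ∀ x ∈ O, ∀ y ∈ O, ∃ g ∈ P, g x = y) (Φ : Finset X) (hΦ : HalfX ρ Φ)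
    (hk : ¬ p ∣ (Φ ∩ O).card) : NDeg H ρ Φ := by
  intro f hodd hsol
  by_contra hf
  obtain ⟨s, hs0, hsP, hsρ, hsum⟩ := fam_fixed p H P hPH hP ρ hρ Φ f hf hodd hsol
  have hcO : O.card = p ^ n := by
    have := half_card_eq ρ hρρ hO
    omega
  have hne : O.Nonempty := by
    rw [← Finset.card_pos, hcO]
    exact pow_pos hp.out.pos n
  obtain ⟨x0, hx0⟩ := hne
  have hc : ∀ x ∈ O, s x = s x0 := by
    intro x hx
    obtain ⟨g, hg, rfl⟩ := htr x0 hx0 x hx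
    exact hsP g hg x0
  have hc0 : s x0 ≠ 0 := by
    intro h0
    apply hs0
    funext x
    by_cases hx : x ∈ O
    · rw [hc x hx, h0]
      rfl
    · have h1 : ρ x ∈ O := by
        by_contra h2
        exact hx ((hO x).2 h2)
      have h2 := hc _ h1
      rw [hsρ, h0, neg_eq_zero] at h2
      exact h2
  have h1 := half_sum ρ hρρ hΦ hO s hsρ
  rw [hsum, zero_sub] at h1
  have h2 : ∑ x ∈ O, s x = (p ^ n : ℕ) • s x0 := by
    rw [Finset.sum_congr rfl hc, Finset.sum_const, hcO]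
  have h3 : ∑ x ∈ Φ \ O, s x = - ((Φ \ O).card • s x0) := by
    rw [← Finset.sum_const, ← Finset.sum_neg_distrib]
    refine Finset.sum_congr rfl fun x hx => ?_
    rw [Finset.mem_sdiff] at hx
    have h4 : ρ x ∈ O := by
      by_contra h2
      exact hx.2 ((hO x).2 h2)
    have h5 := hc _ h4
    rw [hsρ] at h5
    rw [← h5, neg_neg]
  rw [h2, h3] at h1
  have hpz : ((p ^ n : ℕ) : ZMod p) = 0 := by
    rw [ZMod.natCast_eq_zero_iff]
    exact dvd_pow_self p (by omega)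
  have hcd : (Φ \ O).card + (Φ ∩ O).card = p ^ n := by
    rw [Finset.card_sdiff_add_card_inter, half_card ρ hρρ hΦ hO, hcO]
  rw [nsmul_eq_mul, hpz, zero_mul, neg_zero, nsmul_eq_mul, nsmul_eq_mul] at h1
  have h6 : (((Φ \ O).card : ℕ) : ZMod p) = - (((Φ ∩ O).card : ℕ) : ZMod p) := by
    have := congrArg (fun t : ℕ => (t : ZMod p)) hcd
    simp only [Nat.cast_add] at this
    rw [hpz] at this
    linear_combination this
  rw [h6] at h1
  have h7 : (2 : ZMod p) * (((Φ ∩ O).card : ℕ) : ZMod p) * s x0 = 0 := by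
    push_cast at h1
    linear_combination -h1
  have h8 : (2 : ZMod p) ≠ 0 := by
    intro h9
    have h10 : ((2 : ℕ) : ZMod p) = 0 := by exact_mod_cast h9
    rw [ZMod.natCast_eq_zero_iff] at h10
    exact hp2 ((Nat.prime_dvd_prime_iff_eq hp.out Nat.prime_two).1 h10)
  rcases mul_eq_zero.1 h7 with h9 | h9
  · rcases mul_eq_zero.1 h9 with h10 | h10
    · exact h8 h10
    · rw [ZMod.natCast_eq_zero_iff] at h10
      exact hk h10
  · exact hc0 h9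

end Pool.Agent.CMTP
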