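import Mathlib
import Pool.Agent.CMTP.PGrp

set_option autoImplicit false
set_option linter.unusedSectionVars false

/-!
# The three cases
-/

namespace Pool.Agent.CMTP

open Finset MulAction
open scoped BigOperators

variable {X : Type} [Fintype X]

/-! ### Odd primes: the orbit of a Sylow subgroup -/

theorem pgroup_map {G G' : Type} [Group G] [Group G'] (p : ℕ) (φ : G →* G') (P : Subgroup G)
    (hP : IsPGroup p P) : IsPGroup p (P.map φ) := hP.map φ

theorem exists_orbit (p n : ℕ) [hp : Fact p.Prime] (hp2 : p ≠ 2)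
    (hX : Fintype.card X = 2 * p ^ n) (H : Subgroup (Equiv.Perm X))
    (htr : ∀ x y : X, ∃ h ∈ H, h x = y) (ρ : X → X) (hρρ : ∀ x, ρ (ρ x) = x)
    (hρ1 : ∀ x, ρ x ≠ x) (hρ : ∀ h ∈ H, ∀ x, ρ (h x) = h (ρ x)) [DecidableEq X] (x0 : X) :
    ∃ (P : Subgroup (Equiv.Perm X)) (O : Finset X), P ≤ H ∧ IsPGroup p P ∧ HalfX ρ O ∧ x0 ∈ O ∧
      ∀ x ∈ O, ∀ y ∈ O, ∃ g ∈ P, g x = y := by
  classical
  have ht : IsPretransitive H X := ⟨fun x y => by
    obtain ⟨h, hh, hxy⟩ := htr x y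
    exact ⟨⟨h, hh⟩, hxy⟩⟩
  let P0 : Sylow p H := default
  have hcX : Nat.card X = 2 * p ^ n := by rw [Nat.card_eq_fintype_card, hX]
  have hdvd := sylow_orbit_dvd p n (by rw [hcX]; exact dvd_mul_left _ _) ht P0
  -- all orbits have exactly `p ^ n` elements
  have hcard : ∀ x : X, Nat.card (orbit P0 x) = p ^ n := by
    intro x
    obtain ⟨m, hm⟩ := P0.2.card_orbit x
    have h1 := hdvd x
    have hm' : Nat.card (orbit P0 x) = p ^ m := hm
    rw [hm'] at h1 ⊢
    have h2 : n ≤ m := (Nat.pow_dvd_pow_iff_le_right hp.out.one_lt).1 h1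
    have h3 : p ^ m ≤ 2 * p ^ n := by
      rw [← hm', ← hcX]
      exact Nat.card_le_card_of_injective (fun y : orbit P0 x => y.1) Subtype.val_injective
    rcases Nat.lt_or_ge n m with h4 | h4
    · exfalso
      have h5 : p ^ (n + 1) ≤ p ^ m := Nat.pow_le_pow_right hp.out.pos h4
      have h6 : 3 ≤ p := by
        have := hp.out.two_le
        omega
      have h7 : 0 < p ^ n := pow_pos hp.out.pos n
      rw [pow_succ] at h5
      nlinarith
    · rw [le_antisymm h4 h2]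
  let P : Subgroup (Equiv.Perm X) := P0.1.map H.subtype
  let O : Finset X := (orbit P0 x0).toFinset
  have hmemO : ∀ x, x ∈ O ↔ ∃ g ∈ P, g x0 = x := by
    intro x
    rw [Set.mem_toFinset]
    constructor
    · rintro ⟨g, hg⟩
      exact ⟨g.1.1, ⟨g.1, g.2, rfl⟩, hg⟩
    · rintro ⟨g, ⟨g1, hg1, rfl⟩, hg⟩
      exact ⟨⟨g1, hg1⟩, hg⟩
  have hPH : P ≤ H := by
    rintro _ ⟨g1, _, rfl⟩
    exact g1.2
  have hOtr : ∀ x ∈ O, ∀ y ∈ O, ∃ g ∈ P, g x = y := by
    intro x hx y hy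
    obtain ⟨g, hg, rfl⟩ := (hmemO x).1 hx
    obtain ⟨g', hg', rfl⟩ := (hmemO y).1 hy
    exact ⟨g' * g⁻¹, P.mul_mem hg' (P.inv_mem hg), by simp⟩
  have hOst : ∀ g ∈ P, ∀ x, x ∈ O → g x ∈ O := by
    intro g hg x hx
    obtain ⟨g', hg', rfl⟩ := (hmemO x).1 hx
    exact (hmemO _).2 ⟨g * g', P.mul_mem hg hg', rfl⟩
  have hcO : O.card = p ^ n := by
    rw [← hcard x0, Nat.card_eq_fintype_card, Set.toFinset_card]
  have hodd : Odd (p ^ n) := (hp.out.odd_of_ne_two hp2).pow
  -- `ρ O` is disjoint from `O`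
  have hdis : ∀ x ∈ O, ρ x ∉ O := by
    intro x hx hρx
    -- then `ρ` maps `O` to itself
    have h1 : ∀ y ∈ O, ρ y ∈ O := by
      intro y hy
      obtain ⟨g, hg, rfl⟩ := hOtr x hx y hy
      rw [hρ g (hPH hg)]
      exact hOst g hg _ hρx
    have h2 : Even O.card := by
      have h3 : ∑ _x ∈ O, (1 : ZMod 2) = 0 :=
        Finset.sum_involution (fun y _ => ρ y) (fun _ _ => by decide) (fun y _ _ => hρ1 y)
          (fun y hy => h1 y hy) (fun y _ => hρρ y)
      rw [Finset.sum_const, nsmul_eq_mul, mul_one, ZMod.natCast_eq_zero_iff] at h3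
      exact even_iff_two_dvd.2 h3
    rw [hcO] at h2
    exact (Nat.not_even_iff_odd.2 hodd) h2
  refine ⟨P, O, hPH, P0.2.map H.subtype, ?_, (hmemO x0).2 ⟨1, P.one_mem, rfl⟩, hOtr⟩
  -- counting
  have hunion : O ∪ O.image ρ = Finset.univ := by
    apply Finset.eq_univ_of_card
    rw [Finset.card_union_of_disjoint, Finset.card_image_of_injective, hcO, hX]
    · ring
    · intro x y h
      rw [← hρρ x, h, hρρ]
    · rw [Finset.disjoint_left]
      intro x hx hx2
      obtain ⟨y, hy, rfl⟩ := Finset.mem_image.1 hx2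
      exact hdis y hy hx
  intro x
  constructor
  · exact hdis x
  · intro h1
    have h2 : x ∈ O ∪ O.image ρ := by
      rw [hunion]
      exact Finset.mem_univ x
    rcases Finset.mem_union.1 h2 with h3 | h3
    · exact h3
    · obtain ⟨y, hy, rfl⟩ := Finset.mem_image.1 h3
      rw [hρρ] at h1
      exact absurd hy h1

end Pool.Agent.CMTP
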