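import Mathlib
import Pool.Agent.CMTP.Cases

set_option autoImplicit false
set_option linter.unusedSectionVars false
set_option linter.unusedVariables false

/-!
# The case of a block (a quadratic subfield), the case of the prime two, and primitivity
-/

namespace Pool.Agent.CMTP

open Finset MulAction
open scoped BigOperators

variable {X : Type} [Fintype X]

/-- the elements which preserve `O` -/
def stabO (H : Subgroup (Equiv.Perm X)) (O : Finset X) : Subgroup (Equiv.Perm X) where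
  carrier := {h | h ∈ H ∧ ∀ x, h x ∈ O ↔ x ∈ O}
  mul_mem' := by
    rintro a b ⟨ha, ha'⟩ ⟨hb, hb'⟩
    refine ⟨H.mul_mem ha hb, fun x => ?_⟩
    rw [Equiv.Perm.mul_apply, ha', hb']
  one_mem' := ⟨H.one_mem, fun x => by simp⟩
  inv_mem' := by
    rintro a ⟨ha, ha'⟩
    refine ⟨H.inv_mem ha, fun x => ?_⟩
    rw [← ha' ((a⁻¹ : Equiv.Perm X) x)]
    simp

/-- action of the stabilizer on `O` -/
instance actO (H : Subgroup (Equiv.Perm X)) (O : Finset X) :
    MulAction (stabO H O) {x // x ∈ O} where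
  smul h x := ⟨h.1 x.1, (h.2.2 x.1).2 x.2⟩
  one_smul x := rfl
  mul_smul h k x := rfl

theorem ndeg_of_block (p n : ℕ) [hp : Fact p.Prime] (hpn : 3 ≤ p ^ n)
    (hX : Fintype.card X = 2 * p ^ n) (H : Subgroup (Equiv.Perm X))
    (htr : ∀ x y : X, ∃ h ∈ H, h x = y) (ρ : X → X) (hρρ : ∀ x, ρ (ρ x) = x)
    (hρ : ∀ h ∈ H, ∀ x, ρ (h x) = h (ρ x)) [DecidableEq X] (O : Finset X) (hO : HalfX ρ O)
    (hblock : ∀ h ∈ H, ∀ x ∈ O, h x ∈ O → ∀ y, h y ∈ O ↔ y ∈ O) (Φ : Finset X)
    (hΦ : HalfX ρ Φ) (hk : ¬ p ∣ (Φ ∩ O).card) : NDeg H ρ Φ := by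
  classical
  have hn : 1 ≤ n := by
    rcases Nat.eq_zero_or_pos n with h | h
    · rw [h, pow_zero] at hpn
      omega
    · exact h
  have hcO : O.card = p ^ n := by
    have := half_card_eq ρ hρρ hO
    omega
  have hcd : (O \ Φ).card + (Φ ∩ O).card = p ^ n := by
    rw [Finset.inter_comm, Finset.card_sdiff_add_card_inter, hcO]
  have hpp : p ∣ p ^ n := dvd_pow_self p (by omega)
  have hK : ¬ p ∣ (O \ Φ).card := by
    intro h
    apply hk
    rw [← hcd] at hpp
    exact (Nat.dvd_add_right h).1 hpp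
  set H0 := stabO H O with hH0
  have hH0H : H0 ≤ H := fun h hh => hh.1
  have hOtr : ∀ x ∈ O, ∀ y ∈ O, ∃ h ∈ H0, h x = y := by
    intro x hx y hy
    obtain ⟨h, hh, hxy⟩ := htr x y
    exact ⟨h, ⟨hh, hblock h hh x hx (by rw [hxy]; exact hy)⟩, hxy⟩
  intro f hodd hsol
  by_contra hf
  set s : ℤ := ∑ x ∈ O, f x with hs
  -- the relations for `K = O \ Φ`
  have hrel : ∀ h ∈ H0, s = 2 * ∑ x ∈ O \ Φ, f (h x) := by
    intro h hh
    have h1 := half_sum ρ hρρ hO hΦ (fun x => f (h x)) (fun x => by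
      rw [← hρ h (hH0H hh), hodd])
    rw [hsol h (hH0H hh), sub_zero] at h1
    have h2 : ∑ x ∈ O, f (h x) = s := by
      rw [hs]
      refine Finset.sum_bij (fun x _ => h x) (fun x hx => (hh.2 x).2 hx)
        (fun _ _ _ _ hxy => h.injective hxy) ?_ (fun _ _ => rfl)
      intro y hy
      refine ⟨(h⁻¹ : Equiv.Perm X) y, ?_, by simp⟩
      rw [← hh.2]
      simpa using hy
    rw [h2] at h1
    rw [h1, two_nsmul]
    ring
  by_cases hs0 : s = 0
  · -- a fixed vector
    have hsol' : ∀ h ∈ H0, ∑ x ∈ O \ Φ, f (h x) = 0 := by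
      intro h hh
      have := hrel h hh
      rw [hs0] at this
      omega
    have ht : IsPretransitive H0 {x // x ∈ O} := ⟨fun x y => by
      obtain ⟨h, hh, hxy⟩ := hOtr x.1 x.2 y.1 y.2
      exact ⟨⟨h, hh⟩, Subtype.ext hxy⟩⟩
    let P0 : Sylow p H0 := default
    have hcY : Nat.card {x // x ∈ O} = p ^ n := by
      rw [Nat.card_eq_fintype_card, Fintype.card_coe, hcO]
    have htrans := sylow_transitive p n hcY ht P0
    let P : Subgroup (Equiv.Perm X) := P0.1.map H0.subtype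
    have hPH : P ≤ H0 := by
      rintro _ ⟨g1, _, rfl⟩
      exact g1.2
    obtain ⟨t, ht0, htP, htρ, hsum⟩ := fam_fixed p H0 P hPH (P0.2.map H0.subtype) ρ
      (fun h hh => hρ h (hH0H hh)) (O \ Φ) f hf hodd hsol'
    have hne : O.Nonempty := by
      rw [← Finset.card_pos, hcO]
      exact pow_pos hp.out.pos n
    obtain ⟨x0, hx0⟩ := hne
    have hc : ∀ x ∈ O, t x = t x0 := by
      intro x hx
      obtain ⟨g, hg, hgx⟩ := htrans ⟨x0, hx0⟩ ⟨x, hx⟩
      have h1 : g.1 x0 = x := congrArg Subtype.val hgx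
      rw [← h1]
      exact htP g.1 ⟨g, hg, rfl⟩ x0
    have hc0 : t x0 ≠ 0 := by
      intro h0
      apply ht0
      funext x
      by_cases hx : x ∈ O
      · rw [hc x hx, h0]
        rfl
      · have h1 : ρ x ∈ O := by
          by_contra h2
          exact hx ((hO x).2 h2)
        have h2 := hc _ h1
        rw [htρ, h0, neg_eq_zero] at h2
        exact h2
    have h3 : ∑ x ∈ O \ Φ, t x = (((O \ Φ).card : ℕ) : ZMod p) * t x0 := by
      rw [Finset.sum_congr rfl (fun x hx => hc x (Finset.mem_sdiff.1 hx).1), Finset.sum_const,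
        nsmul_eq_mul]
    rw [h3] at hsum
    rcases mul_eq_zero.1 hsum with h4 | h4
    · rw [ZMod.natCast_eq_zero_iff] at h4
      exact hK h4
    · exact hc0 h4
  · -- averaging
    let T : X → ℤ := fun x => ∑ h : H0, f (h.1 x)
    have hT : ∀ x ∈ O, ∀ y ∈ O, T x = T y := by
      intro x hx y hy
      obtain ⟨k, hk', rfl⟩ := hOtr x hx y hy
      show ∑ h : H0, f (h.1 x) = ∑ h : H0, f (h.1 (k x))
      refine (Fintype.sum_equiv (Equiv.mulRight (⟨k, hk'⟩ : H0)) _ _ fun h => ?_).symm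
      rfl
    have hne : O.Nonempty := by
      rw [← Finset.card_pos, hcO]
      exact pow_pos hp.out.pos n
    obtain ⟨x0, hx0⟩ := hne
    have h1 : ∑ x ∈ O, T x = Fintype.card H0 * s := by
      show ∑ x ∈ O, ∑ h : H0, f (h.1 x) = _
      rw [Finset.sum_comm]
      have h2 : ∀ h : H0, ∑ x ∈ O, f (h.1 x) = s := by
        intro h
        rw [hs]
        refine Finset.sum_bij (fun x _ => h.1 x) (fun x hx => (h.2.2 x).2 hx)
          (fun _ _ _ _ hxy => h.1.injective hxy) ?_ (fun _ _ => rfl)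
        intro y hy
        refine ⟨(h.1⁻¹ : Equiv.Perm X) y, ?_, by simp⟩
        rw [← h.2.2]
        simpa using hy
      rw [Finset.sum_congr rfl (fun h _ => h2 h), Finset.sum_const, Finset.card_univ,
        nsmul_eq_mul]
    have h2 : 2 * ∑ x ∈ O \ Φ, T x = Fintype.card H0 * s := by
      show 2 * ∑ x ∈ O \ Φ, ∑ h : H0, f (h.1 x) = _
      rw [Finset.sum_comm, Finset.mul_sum,
        Finset.sum_congr rfl (fun (h : H0) _ => (hrel h.1 h.2).symm), Finset.sum_const,
        Finset.card_univ, nsmul_eq_mul]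
    have h3 : ∑ x ∈ O, T x = (O.card : ℤ) * T x0 := by
      rw [Finset.sum_congr rfl (fun x hx => hT x hx x0 hx0), Finset.sum_const, nsmul_eq_mul]
    have h4 : ∑ x ∈ O \ Φ, T x = ((O \ Φ).card : ℤ) * T x0 := by
      rw [Finset.sum_congr rfl (fun x hx => hT x (Finset.mem_sdiff.1 hx).1 x0 hx0),
        Finset.sum_const, nsmul_eq_mul]
    rw [h3] at h1
    rw [h4] at h2
    have hcH : (Fintype.card H0 : ℤ) ≠ 0 := by
      have : 0 < Fintype.card H0 := Fintype.card_pos
      exact_mod_cast this.ne'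
    have hT0 : T x0 ≠ 0 := by
      intro h5
      rw [h5, mul_zero] at h1
      rcases mul_eq_zero.1 h1.symm with h6 | h6
      · exact hcH h6
      · exact hs0 h6
    have h5 : (O.card : ℤ) = 2 * ((O \ Φ).card : ℤ) := by
      have : (O.card : ℤ) * T x0 = (2 * ((O \ Φ).card : ℤ)) * T x0 := by
        rw [h1, ← h2]
        ring
      exact mul_right_cancel₀ hT0 this
    have h6 : p ^ n = 2 * (O \ Φ).card := by
      rw [hcO] at h5
      exact_mod_cast h5
    rcases hp.out.eq_two_or_odd' with h7 | h7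
    · subst h7
      apply hK
      have h8 : 2 ≤ n := by
        by_contra h9
        have : n = 1 := by omega
        rw [this] at hpn
        omega
      obtain ⟨m, rfl⟩ : ∃ m, n = m + 2 := ⟨n - 2, by omega⟩
      have h10 : 2 ^ (m + 2) = 4 * 2 ^ m := by ring
      exact ⟨2 ^ m, by omega⟩
    · have h8 : Odd (p ^ n) := h7.pow
      rw [h6] at h8
      exact (Nat.not_even_iff_odd.2 h8) (even_two_mul _)

/-- The case of the prime two: a permutation with an odd number of sign changes. -/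
theorem ndeg_of_odd (n : ℕ) (hX : Fintype.card X = 2 ^ n) (H : Subgroup (Equiv.Perm X))
    (htr : ∀ x y : X, ∃ h ∈ H, h x = y) (ρ : X → X) (hρρ : ∀ x, ρ (ρ x) = x)
    (hρ : ∀ h ∈ H, ∀ x, ρ (h x) = h (ρ x)) [DecidableEq X] (Φ : Finset X)
    (hΦ : HalfX ρ Φ) (h0 : Equiv.Perm X) (hh0 : h0 ∈ H) (hk : Odd (Φ \ Φ.image h0).card) :
    NDeg H ρ Φ := by
  classical
  have : Fact (Nat.Prime 2) := ⟨Nat.prime_two⟩
  intro f hodd hsol
  by_contra hf
  have hΨ : HalfX ρ (Φ.image h0) := by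
    intro x
    have e : ∀ y, y ∈ Φ.image h0 ↔ (h0⁻¹ : Equiv.Perm X) y ∈ Φ := by
      intro y
      rw [Finset.mem_image]
      constructor
      · rintro ⟨z, hz, rfl⟩
        simpa using hz
      · intro hy
        exact ⟨_, hy, by simp⟩
    rw [e, e, ← hρ _ (H.inv_mem hh0)]
    exact hΦ _
  have hsol' : ∀ h ∈ H, ∑ x ∈ Φ \ Φ.image h0, f (h x) = 0 := by
    intro h hh
    have h1 := half_sum ρ hρρ hΦ hΨ (fun x => f (h x)) (fun x => by rw [← hρ h hh, hodd])
    rw [hsol h hh, Finset.sum_image (fun x _ y _ hxy => h0.injective hxy)] at h1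
    have h2 : ∑ x ∈ Φ, f (h (h0 x)) = 0 := hsol (h * h0) (H.mul_mem hh hh0)
    rw [h2, sub_zero, two_nsmul] at h1
    omega
  have ht : IsPretransitive H X := ⟨fun x y => by
    obtain ⟨h, hh, hxy⟩ := htr x y
    exact ⟨⟨h, hh⟩, hxy⟩⟩
  let P0 : Sylow 2 H := default
  have htrans := sylow_transitive 2 n (by rw [Nat.card_eq_fintype_card, hX]) ht P0
  let P : Subgroup (Equiv.Perm X) := P0.1.map H.subtype
  have hPH : P ≤ H := by
    rintro _ ⟨g1, _, rfl⟩
    exact g1.2
  obtain ⟨t, ht0, htP, htρ, hsum⟩ := fam_fixed 2 H P hPH (P0.2.map H.subtype) ρ hρ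
    (Φ \ Φ.image h0) f hf hodd hsol'
  obtain ⟨x0, hx0⟩ := Function.ne_iff.1 ht0
  have hc : ∀ x, t x = t x0 := by
    intro x
    obtain ⟨g, hg, hgx⟩ := htrans x0 x
    have h1 : g.1 x0 = x := hgx
    rw [← h1]
    exact htP g.1 ⟨g, hg, rfl⟩ x0
  have h3 : ∑ x ∈ Φ \ Φ.image h0, t x = (((Φ \ Φ.image h0).card : ℕ) : ZMod 2) * t x0 := by
    rw [Finset.sum_congr rfl (fun x _ => hc x), Finset.sum_const, nsmul_eq_mul]
  rw [h3] at hsum
  rcases mul_eq_zero.1 hsum with h4 | h4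
  · rw [ZMod.natCast_eq_zero_iff] at h4
    exact (Nat.not_even_iff_odd.2 hk) (even_iff_two_dvd.2 h4)
  · exact hx0 h4

/-- Non-degenerate half systems are not unions of classes of an invariant relation. -/
theorem primitive_of_ndeg (H : Subgroup (Equiv.Perm X)) (ρ : X → X) (hρρ : ∀ x, ρ (ρ x) = x)
    (hρ : ∀ h ∈ H, ∀ x, ρ (h x) = h (ρ x)) (Φ : Finset X) (hΦ : HalfX ρ Φ)
    (hnd : NDeg H ρ Φ) (r : X → X → Prop) (hr : ∀ h ∈ H, ∀ x y, r x y → r (h x) (h y))
    (hrΦ : ∀ x y, r x y → (x ∈ Φ ↔ y ∈ Φ)) (x y : X) (hxy : r x y) : x = y := by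
  classical
  have hρ1 : ∀ x, ρ x ≠ x := by
    intro z hz
    have := hΦ z
    rw [hz] at this
    tauto
  by_contra hne
  let f : X → ℤ := fun z => (if z = x then 1 else 0) - (if z = y then 1 else 0) -
    (if z = ρ x then 1 else 0) + (if z = ρ y then 1 else 0)
  have hf := hnd f ?_ ?_
  · have h1 := congrFun hf x
    simp only [f, Pi.zero_apply, if_true, if_neg hne, if_neg (hρ1 x).symm] at h1
    split_ifs at h1 <;> omega
  · intro z
    have e1 : ∀ w, (ρ z = w) ↔ (z = ρ w) := by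
      intro w
      constructor
      · intro h
        rw [← h, hρρ]
      · intro h
        rw [h, hρρ]
    simp only [f, e1, hρρ]
    ring
  · intro h hh
    have e2 : ∀ w, ∑ z ∈ Φ, (if h z = w then (1 : ℤ) else 0) =
        if (h⁻¹ : Equiv.Perm X) w ∈ Φ then 1 else 0 := by
      intro w
      have e3 : ∀ z, (h z = w) ↔ (z = (h⁻¹ : Equiv.Perm X) w) := by
        intro z
        rw [Equiv.Perm.eq_inv_iff_eq]
      simp only [e3, Finset.sum_ite_eq']
    simp only [f, Finset.sum_add_distrib, Finset.sum_sub_distrib, e2]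
    rw [← hρ _ (H.inv_mem hh), ← hρ _ (H.inv_mem hh)]
    have h1 := hrΦ _ _ (hr _ (H.inv_mem hh) _ _ hxy)
    have h2 := hΦ ((h⁻¹ : Equiv.Perm X) x)
    have h3 := hΦ ((h⁻¹ : Equiv.Perm X) y)
    by_cases h4 : (h⁻¹ : Equiv.Perm X) x ∈ Φ
    · have h5 := h1.1 h4
      rw [if_pos h4, if_pos h5, if_neg (h2.1 h4), if_neg (h3.1 h5)]
      ring
    · have h5 : (h⁻¹ : Equiv.Perm X) y ∉ Φ := fun h6 => h4 (h1.2 h6)
      have h6 : ρ ((h⁻¹ : Equiv.Perm X) x) ∈ Φ := by
        by_contra h7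
        exact h4 (h2.2 h7)
      have h7 : ρ ((h⁻¹ : Equiv.Perm X) y) ∈ Φ := by
        by_contra h8
        exact h5 (h3.2 h8)
      rw [if_neg h4, if_neg h5, if_pos h6, if_pos h7]
      ring

end Pool.Agent.CMTP
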