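import Mathlib
import Pool.Agent.CMT.Divis
import Pool.Agent.CMTP.Block

set_option autoImplicit false
set_option linter.unusedSectionVars false
set_option linter.unusedVariables false

/-!
# CM types of CM fields: translation to half systems
-/

namespace Pool.Agent.CMTP

open NumberField Finset
open Pool.Agent.CMT (QBar IsCMType TateWeight Divisorial TateByDivisors cc cc_cc comp_cc idx
  mem_idx divisorial_of_count)
open scoped BigOperators

/-- The type is not induced from a proper subfield: the criterion for the simplicity of the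
abelian varieties of CM type `(K, Φ)`. -/
def NotInduced {K : Type} [Field K] [NumberField K] (Φ : Finset (K →+* QBar)) : Prop :=
  ∀ F : IntermediateField ℚ K, (∀ φ ψ : K →+* QBar, (∀ x ∈ F, φ x = ψ x) →
    (φ ∈ Φ ↔ ψ ∈ Φ)) → F = ⊤

variable (K : Type) [Field K] [NumberField K]

/-- permutation of the embeddings -/
noncomputable def toPerm : (QBar ≃+* QBar) →* Equiv.Perm (K →+* QBar) where
  toFun τ :=
    { toFun := fun φ => (τ : QBar →+* QBar).comp φ
      invFun := fun φ => ((τ⁻¹ : QBar ≃+* QBar) : QBar →+* QBar).comp φ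
      left_inv := fun φ => by
        ext x
        show (τ⁻¹ : QBar ≃+* QBar) (τ (φ x)) = φ x
        exact τ.symm_apply_apply _
      right_inv := fun φ => by
        ext x
        show τ ((τ⁻¹ : QBar ≃+* QBar) (φ x)) = φ x
        exact τ.apply_symm_apply _ }
  map_one' := rfl
  map_mul' := fun _ _ => rfl

/-- the group of the permutations of the embeddings induced by automorphisms -/
noncomputable def HG : Subgroup (Equiv.Perm (K →+* QBar)) := (toPerm K).range

theorem toPerm_apply (τ : QBar ≃+* QBar) (φ : K →+* QBar) (x : K) :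
    (toPerm K τ φ) x = τ (φ x) := rfl

theorem isAlgebraic_QBar (K' : Type) [Field K'] [CharZero K'] [Algebra K' QBar] :
    Algebra.IsAlgebraic K' QBar := by
  have h0 : Algebra.IsAlgebraic ℚ QBar := by
    have e : (AlgebraicClosure.instAlgebra ℚ : Algebra ℚ (AlgebraicClosure ℚ)) =
        (DivisionRing.toRatAlgebra : Algebra ℚ QBar) := Subsingleton.elim _ _
    have h := AlgebraicClosure.isAlgebraic ℚ
    rw [e] at h
    exact h
  have : IsScalarTower ℚ K' QBar := IsScalarTower.of_algebraMap_eq' (Subsingleton.elim _ _)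
  exact Algebra.IsAlgebraic.tower_top (K := ℚ) K'

/-- two embeddings differ by an automorphism -/
theorem transitive (φ ψ : K →+* QBar) : ∃ h ∈ HG K, h φ = ψ := by
  let eφ : K ≃+* φ.fieldRange := RingHom.rangeRestrictFieldEquiv φ
  let eψ : K ≃+* ψ.fieldRange := RingHom.rangeRestrictFieldEquiv ψ
  let e : φ.fieldRange ≃+* ψ.fieldRange := eφ.symm.trans eψ
  have h1 : Algebra.IsAlgebraic φ.fieldRange QBar := isAlgebraic_QBar _
  have h2 : Algebra.IsAlgebraic ψ.fieldRange QBar := isAlgebraic_QBar _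
  have : IsAlgClosure φ.fieldRange QBar := ⟨inferInstance, inferInstance⟩
  have : IsAlgClosure ψ.fieldRange QBar := ⟨inferInstance, inferInstance⟩
  let τ : QBar ≃+* QBar := IsAlgClosure.equivOfEquiv QBar QBar e
  refine ⟨toPerm K τ, ⟨τ, rfl⟩, ?_⟩
  ext x
  rw [toPerm_apply]
  have h3 := IsAlgClosure.equivOfEquiv_algebraMap QBar QBar e (eφ x)
  have h4 : e (eφ x) = eψ x := by simp [e]
  rw [h4] at h3
  exact h3

section conj

variable {K}
variable [IsCMField K]

theorem hg_cc : ∀ h ∈ HG K, ∀ φ : K →+* QBar, cc (h φ) = h (cc φ) := by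
  rintro _ ⟨τ, rfl⟩ φ
  rfl

theorem cc_apply (φ : K →+* QBar) (x : K) : cc φ x = φ (IsCMField.complexConj K x) := rfl

theorem half_iff (Φ : Finset (K →+* QBar)) : IsCMType K Φ ↔ HalfX cc Φ := Iff.rfl

theorem exists_type : ∃ Φ : Finset (K →+* QBar), IsCMType K Φ := by
  classical
  have hne : ∀ ψ : K →+* QBar, ψ ≠ cc ψ := by
    intro ψ h
    apply IsCMField.complexConj_ne_one K
    ext x
    apply ψ.injective
    rw [← cc_apply, ← h]
    rfl
  let f := Fintype.equivFin (K →+* QBar)
  refine ⟨Finset.univ.filter (fun x => f x < f (cc x)), fun x => ?_⟩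
  show x ∈ _ ↔ cc x ∉ _
  simp only [Finset.mem_filter, Finset.mem_univ, true_and]
  rw [cc_cc, not_lt]
  have hne' : f x ≠ f (cc x) := fun h => hne x (f.injective h)
  constructor
  · intro h
    exact h.le
  · intro h
    exact lt_of_le_of_ne h hne'

theorem cc_ne (ψ : K →+* QBar) : cc ψ ≠ ψ := by
  intro h
  apply IsCMField.complexConj_ne_one K
  ext x
  apply ψ.injective
  rw [← cc_apply, h]
  rfl

theorem card_idx {n : ℕ} (Δ : Finset ((K →+* QBar) × Fin n)) (S : Finset (K →+* QBar)) :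
    {p : (K →+* QBar) × Fin n | p ∈ Δ ∧ p.1 ∈ S}.ncard = ∑ φ ∈ S, (idx Δ φ).card := by
  classical
  have h1 : {p : (K →+* QBar) × Fin n | p ∈ Δ ∧ p.1 ∈ S}.ncard =
      (Δ.filter (fun p => p.1 ∈ S)).card := by
    rw [← Set.ncard_coe_finset]
    congr 1
    ext p
    simp
  rw [h1, Finset.card_eq_sum_card_fiberwise (f := fun p : (K →+* QBar) × Fin n => p.1) (t := S)
    (fun p hp => by
      rw [Finset.mem_coe, Finset.mem_filter] at hp
      exact hp.2)]
  refine Finset.sum_congr rfl fun φ hφ => ?_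
  refine Finset.card_bij (fun p _ => p.2) ?_ ?_ ?_
  · intro p hp
    rw [Finset.mem_filter, Finset.mem_filter] at hp
    rw [mem_idx]
    obtain ⟨⟨h2, _⟩, h3⟩ := hp
    rw [← h3]
    exact h2
  · intro p hp q hq hpq
    rw [Finset.mem_filter] at hp hq
    exact Prod.ext (hp.2.trans hq.2.symm) hpq
  · intro j hj
    rw [mem_idx] at hj
    refine ⟨(φ, j), ?_, rfl⟩
    rw [Finset.mem_filter, Finset.mem_filter]
    exact ⟨⟨hj, hφ⟩, rfl⟩

/-- non-degenerate types: all Tate classes are products of divisor classes -/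
theorem tateByDivisors_of_ndeg {Φ : Finset (K →+* QBar)} (hΦ : IsCMType K Φ)
    (hnd : NDeg (HG K) cc Φ) : TateByDivisors Φ := by
  classical
  intro n i Δ hΔ
  obtain ⟨hΔ1, hΔ2⟩ := hΔ
  let m : (K →+* QBar) → ℤ := fun φ => ((idx Δ φ).card : ℤ)
  have htot : ∑ φ, m φ = 2 * i := by
    have h1 := card_idx Δ Finset.univ
    have h2 : {p : (K →+* QBar) × Fin n | p ∈ Δ ∧ p.1 ∈ (Finset.univ : Finset (K →+* QBar))}.ncard
        = Δ.card := by
      rw [← Set.ncard_coe_finset]
      congr 1
      ext p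
      simp
    rw [h2, hΔ1] at h1
    have h3 : ((∑ φ, (idx Δ φ).card : ℕ) : ℤ) = ((2 * i : ℕ) : ℤ) := by rw [h1]
    push_cast at h3
    exact h3
  -- the relations
  have hrel : ∀ h ∈ HG K, ∑ φ ∈ Φ, m (h φ) = i := by
    rintro _ ⟨τ, rfl⟩
    have h1 := hΔ2 τ⁻¹
    have h2 : {p : (K →+* QBar) × Fin n | p ∈ Δ ∧
        ((τ⁻¹ : QBar ≃+* QBar) : QBar →+* QBar).comp p.1 ∈ Φ} =
        {p : (K →+* QBar) × Fin n | p ∈ Δ ∧ p.1 ∈ Φ.image (toPerm K τ)} := by
      ext p
      simp only [Set.mem_ofPred_eq, Finset.mem_image]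
      constructor
      · rintro ⟨h3, h4⟩
        refine ⟨h3, _, h4, ?_⟩
        ext x
        rw [toPerm_apply]
        exact τ.apply_symm_apply _
      · rintro ⟨h3, φ, h4, h5⟩
        refine ⟨h3, ?_⟩
        have h6 : ((τ⁻¹ : QBar ≃+* QBar) : QBar →+* QBar).comp p.1 = φ := by
          rw [← h5]
          ext x
          exact τ.symm_apply_apply _
        rw [h6]
        exact h4
    rw [h2, card_idx] at h1
    rw [Finset.sum_image (fun x _ y _ hxy => (toPerm K τ).injective hxy)] at h1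
    have h3 : ((∑ φ ∈ Φ, (idx Δ (toPerm K τ φ)).card : ℕ) : ℤ) = (i : ℤ) := by rw [h1]
    push_cast at h3
    exact h3
  have hcompl : ∀ h ∈ HG K, ∑ φ ∈ Φ, m (cc (h φ)) = i := by
    intro h hh
    have h1 : ∑ φ, m (h φ) = 2 * i := by
      rw [← htot]
      exact Fintype.sum_equiv h _ _ (fun _ => rfl)
    have h2 : ∑ φ ∈ Φᶜ, m (h φ) = ∑ φ ∈ Φ, m (cc (h φ)) := by
      refine Finset.sum_bij' (fun φ _ => cc φ) (fun φ _ => cc φ) ?_ ?_ ?_ ?_ ?_
      · intro φ hφ
        rw [Finset.mem_compl] at hφ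
        by_contra h3
        exact hφ ((hΦ φ).2 h3)
      · intro φ hφ
        rw [Finset.mem_compl]
        exact (hΦ φ).1 hφ
      · intro φ _
        exact cc_cc φ
      · intro φ _
        exact cc_cc φ
      · intro φ _
        rw [← hg_cc h hh, cc_cc]
    have h3 := Finset.sum_add_sum_compl Φ (fun φ => m (h φ))
    rw [h1, hrel h hh, h2] at h3
    linarith
  have hf := hnd (fun φ => m φ - m (cc φ)) ?_ ?_
  · refine divisorial_of_count hΦ fun φ => ?_
    have h1 := congrFun hf φ
    simp only [m, Pi.zero_apply] at h1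
    omega
  · intro φ
    rw [cc_cc]
    ring
  · intro h hh
    rw [Finset.sum_sub_distrib, hrel h hh, hcompl h hh, sub_self]

/-- non-degenerate types are not induced -/
theorem notInduced_of_ndeg {Φ : Finset (K →+* QBar)} (hΦ : IsCMType K Φ)
    (hnd : NDeg (HG K) cc Φ) : NotInduced Φ := by
  classical
  intro F hF
  have h1 := primitive_of_ndeg (HG K) cc cc_cc hg_cc Φ hΦ hnd
    (fun φ ψ => ∀ x ∈ F, φ x = ψ x) (by
      rintro _ ⟨τ, rfl⟩ φ ψ h x hx
      rw [toPerm_apply, toPerm_apply, h x hx]) hF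
  let φ0 : K →+* QBar := ((IsAlgClosed.lift : K →ₐ[ℚ] QBar) : K →+* QBar)
  let alg : Algebra F QBar := (φ0.comp (algebraMap F K)).toAlgebra
  have h2 : Subsingleton (K →ₐ[F] QBar) := ⟨fun a b => by
    have h3 : (a : K →+* QBar) = (b : K →+* QBar) := by
      refine h1 _ _ fun x hx => ?_
      have e1 := a.commutes ⟨x, hx⟩
      have e2 := b.commutes ⟨x, hx⟩
      exact e1.trans e2.symm
    exact AlgHom.coe_ringHom_injective h3⟩
  have h3 : Fintype.card (K →ₐ[F] QBar) = Module.finrank F K := AlgHom.card F K QBar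
  have h4 : Fintype.card (K →ₐ[F] QBar) ≤ 1 := Fintype.card_le_one_iff_subsingleton.2 h2
  have h5 : 0 < Module.finrank F K := Module.finrank_pos
  rw [← IntermediateField.finrank_eq_one_iff_eq_top]
  omega

end conj

end Pool.Agent.CMTP
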