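import Mathlib
import Pool.Agent.CMTP.Field

set_option autoImplicit false
set_option linter.unusedSectionVars false
set_option linter.unusedVariables false

/-!
# CM fields of degree `2 p ^ n`
-/

namespace Pool.Agent.CMTP

open NumberField Finset
open Pool.Agent.CMT (QBar IsCMType TateWeight Divisorial TateByDivisors cc cc_cc comp_cc idx
  mem_idx divisorial_of_count)
open scoped BigOperators

variable {K : Type} [Field K] [NumberField K] [IsCMField K]

theorem card_emb : Fintype.card (K →+* QBar) = Module.finrank ℚ K :=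
  NumberField.Embeddings.card K QBar

/-- a CM type and an imaginary quadratic subfield -/
theorem good_of_quadratic (p n : ℕ) (hp : p.Prime) (hK : Module.finrank ℚ K = 2 * p ^ n)
    (hpn : 3 ≤ p ^ n) (ε : K) (hε : ε ≠ 0) (hc : IsCMField.complexConj K ε = -ε)
    (q : ℚ) (hq : ε ^ 2 = algebraMap ℚ K q) (φ0 : K →+* QBar) [DecidableEq (K →+* QBar)]
    [DecidableEq QBar] (Φ : Finset (K →+* QBar)) (hΦ : IsCMType K Φ)
    (hk : ¬ p ∣ (Φ ∩ Finset.univ.filter (fun φ => φ ε = φ0 ε)).card) : NDeg (HG K) cc Φ := by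
  classical
  have : Fact p.Prime := ⟨hp⟩
  have hsq : ∀ φ : K →+* QBar, φ ε ^ 2 = (q : QBar) := by
    intro φ
    rw [← map_pow, hq]
    simp
  have hcc : ∀ φ : K →+* QBar, cc φ ε = - φ ε := by
    intro φ
    rw [cc_apply, hc, map_neg]
  have hpm : ∀ φ : K →+* QBar, φ ε = φ0 ε ∨ φ ε = - φ0 ε := by
    intro φ
    exact sq_eq_sq_iff_eq_or_eq_neg.1 ((hsq φ).trans (hsq φ0).symm)
  have h0 : φ0 ε ≠ 0 := by
    intro h
    exact hε (φ0.injective (by rw [h, map_zero]))
  have hne : φ0 ε ≠ - φ0 ε := by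
    intro h
    have h1 : (2 : QBar) * φ0 ε = 0 := by linear_combination h
    rcases mul_eq_zero.1 h1 with h2 | h2
    · exact two_ne_zero h2
    · exact h0 h2
  set O : Finset (K →+* QBar) := Finset.univ.filter (fun φ => φ ε = φ0 ε) with hOdef
  have hmem : ∀ φ, φ ∈ O ↔ φ ε = φ0 ε := by
    intro φ
    simp [hOdef]
  have hO : HalfX cc O := by
    intro φ
    rw [hmem, hmem, hcc]
    rcases hpm φ with h | h
    · rw [h]
      exact ⟨fun _ h1 => hne h1.symm, fun _ => rfl⟩
    · rw [h, neg_neg]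
      exact ⟨fun h1 => absurd h1.symm hne, fun h1 => absurd rfl h1⟩
  refine ndeg_of_block p n hpn (by rw [card_emb, hK]) (HG K) (transitive K) cc cc_cc hg_cc O hO ?_
    Φ hΦ hk
  rintro _ ⟨τ, rfl⟩ φ hφ hφ' ψ
  rw [hmem] at hφ hφ' ⊢
  rw [hmem]
  rw [toPerm_apply, hφ] at hφ'
  rw [toPerm_apply]
  constructor
  · intro h
    rw [← hφ'] at h
    exact τ.injective h
  · intro h
    rw [h, hφ']

/-- odd primes: the half system of a Sylow orbit -/
theorem good_of_odd (p n : ℕ) (hp : p.Prime) (hp2 : p ≠ 2) (hK : Module.finrank ℚ K = 2 * p ^ n)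
    (hpn : 3 ≤ p ^ n) [DecidableEq (K →+* QBar)] :
    ∃ O : Finset (K →+* QBar), IsCMType K O ∧ ∀ Φ : Finset (K →+* QBar), IsCMType K Φ →
      ¬ p ∣ (Φ ∩ O).card → NDeg (HG K) cc Φ := by
  have : Fact p.Prime := ⟨hp⟩
  have hn : 1 ≤ n := by
    rcases Nat.eq_zero_or_pos n with h | h
    · rw [h, pow_zero] at hpn
      omega
    · exact h
  let φ0 : K →+* QBar := ((IsAlgClosed.lift : K →ₐ[ℚ] QBar) : K →+* QBar)
  obtain ⟨P, O, hPH, hP, hO, _, htr⟩ := exists_orbit p n hp2 (by rw [card_emb, hK]) (HG K)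
    (transitive K) cc cc_cc cc_ne hg_cc φ0
  exact ⟨O, hO, fun Φ hΦ hk => ndeg_of_orbit p n hp2 hn (by rw [card_emb, hK]) (HG K) P hPH hP cc
    cc_cc hg_cc O hO htr Φ hΦ hk⟩

/-- exchanging one pair of conjugate embeddings -/
theorem count_half (O : Finset (K →+* QBar)) (hO : IsCMType K O) (p : ℕ) (hp : p.Prime)
    [DecidableEq (K →+* QBar)] (good : Finset (K →+* QBar) → Prop)
    (hgood : ∀ Φ : Finset (K →+* QBar), IsCMType K Φ → ¬ p ∣ (Φ ∩ O).card → good Φ) :
    2 * Nat.card {Φ : Finset (K →+* QBar) // IsCMType K Φ ∧ ¬ good Φ} ≤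
      Nat.card {Φ : Finset (K →+* QBar) // IsCMType K Φ} := by
  classical
  let φ1 : K →+* QBar := ((IsAlgClosed.lift : K →ₐ[ℚ] QBar) : K →+* QBar)
  obtain ⟨φ0, hφ0⟩ : ∃ φ, φ ∈ O := by
    by_cases h : φ1 ∈ O
    · exact ⟨φ1, h⟩
    · refine ⟨cc φ1, ?_⟩
      by_contra h2
      exact h ((hO φ1).2 h2)
  have hφ0' : cc φ0 ∉ O := (hO φ0).1 hφ0
  -- the exchange
  let ex : Finset (K →+* QBar) → Finset (K →+* QBar) := fun Φ => symmDiff Φ {φ0, cc φ0}
  have hexex : ∀ Φ, ex (ex Φ) = Φ := by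
    intro Φ
    show symmDiff (symmDiff Φ {φ0, cc φ0}) {φ0, cc φ0} = Φ
    rw [symmDiff_assoc, symmDiff_self]
    exact symmDiff_bot Φ
  have hmemex : ∀ Φ φ, φ ∈ ex Φ ↔ (φ ∈ Φ ∧ ¬ (φ = φ0 ∨ φ = cc φ0)) ∨
      ((φ = φ0 ∨ φ = cc φ0) ∧ φ ∉ Φ) := by
    intro Φ φ
    show φ ∈ symmDiff Φ {φ0, cc φ0} ↔ _
    rw [Finset.mem_symmDiff, Finset.mem_insert, Finset.mem_singleton]
  have hextype : ∀ Φ, IsCMType K Φ → IsCMType K (ex Φ) := by
    intro Φ hΦ φ
    show φ ∈ ex Φ ↔ cc φ ∉ ex Φ
    have h1 : φ ∈ Φ ↔ cc φ ∉ Φ := hΦ φ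
    have h2 : (cc φ = φ0 ∨ cc φ = cc φ0) ↔ (φ = φ0 ∨ φ = cc φ0) := by
      constructor
      · rintro (h | h)
        · right
          rw [← h, cc_cc]
        · left
          rw [← cc_cc φ, h, cc_cc]
      · rintro (h | h)
        · right
          rw [h]
        · left
          rw [h, cc_cc]
    rw [hmemex, hmemex, h2]
    tauto
  have hcard : ∀ Φ, IsCMType K Φ → (ex Φ ∩ O).card = (Φ ∩ O).card + 1 ∨
      (Φ ∩ O).card = (ex Φ ∩ O).card + 1 := by
    intro Φ hΦ
    by_cases h : φ0 ∈ Φ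
    · right
      have h1 : Φ ∩ O = insert φ0 (ex Φ ∩ O) := by
        ext φ
        rw [Finset.mem_insert, Finset.mem_inter, Finset.mem_inter, hmemex]
        constructor
        · rintro ⟨h2, h3⟩
          by_cases h4 : φ = φ0
          · exact Or.inl h4
          · right
            refine ⟨Or.inl ⟨h2, ?_⟩, h3⟩
            rintro (h5 | h5)
            · exact h4 h5
            · rw [h5] at h3
              exact hφ0' h3
        · rintro (h2 | ⟨h2, h3⟩)
          · rw [h2]
            exact ⟨h, hφ0⟩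
          · refine ⟨?_, h3⟩
            rcases h2 with h4 | ⟨h4, h5⟩
            · exact h4.1
            · rcases h4 with h6 | h6
              · rw [h6] at h5
                exact absurd h h5
              · rw [h6] at h3
                exact absurd h3 hφ0'
      rw [h1, Finset.card_insert_of_notMem]
      rw [Finset.mem_inter, hmemex]
      rintro ⟨h2, _⟩
      rcases h2 with h3 | h3
      · exact h3.2 (Or.inl rfl)
      · exact h3.2 h
    · left
      have h1 : ex Φ ∩ O = insert φ0 (Φ ∩ O) := by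
        ext φ
        rw [Finset.mem_insert, Finset.mem_inter, Finset.mem_inter, hmemex]
        constructor
        · rintro ⟨h2, h3⟩
          by_cases h4 : φ = φ0
          · exact Or.inl h4
          · right
            refine ⟨?_, h3⟩
            rcases h2 with h5 | ⟨h5, _⟩
            · exact h5.1
            · rcases h5 with h6 | h6
              · exact absurd h6 h4
              · rw [h6] at h3
                exact absurd h3 hφ0'
        · rintro (h2 | ⟨h2, h3⟩)
          · rw [h2]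
            exact ⟨Or.inr ⟨Or.inl rfl, h⟩, hφ0⟩
          · refine ⟨Or.inl ⟨h2, ?_⟩, h3⟩
            rintro (h5 | h5)
            · rw [h5] at h2
              exact h h2
            · rw [h5] at h3
              exact hφ0' h3
      rw [h1, Finset.card_insert_of_notMem]
      rw [Finset.mem_inter]
      exact fun h2 => h h2.1
  -- counting
  have hle : Nat.card {Φ : Finset (K →+* QBar) // IsCMType K Φ ∧ ¬ good Φ} ≤
      Nat.card {Φ : Finset (K →+* QBar) // IsCMType K Φ ∧ good Φ} := by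
    refine Nat.card_le_card_of_injective (fun Φ => ⟨ex Φ.1, hextype _ Φ.2.1, ?_⟩) ?_
    · apply hgood _ (hextype _ Φ.2.1)
      have h1 : p ∣ (Φ.1 ∩ O).card := by
        by_contra h2
        exact Φ.2.2 (hgood _ Φ.2.1 h2)
      intro h2
      have h3 : p ∣ 1 := by
        rcases hcard Φ.1 Φ.2.1 with h4 | h4
        · rw [h4] at h2
          exact (Nat.dvd_add_right h1).1 h2
        · rw [h4] at h1
          exact (Nat.dvd_add_right h2).1 h1
      exact hp.one_lt.ne' (Nat.dvd_one.1 h3)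
    · intro Φ Ψ h
      have h1 : ex Φ.1 = ex Ψ.1 := congrArg Subtype.val h
      apply Subtype.ext
      rw [← hexex Φ.1, h1, hexex]
  have hsum : Nat.card {Φ : Finset (K →+* QBar) // IsCMType K Φ} =
      Nat.card {Φ : Finset (K →+* QBar) // IsCMType K Φ ∧ good Φ} +
      Nat.card {Φ : Finset (K →+* QBar) // IsCMType K Φ ∧ ¬ good Φ} := by
    rw [Nat.card_eq_fintype_card, Nat.card_eq_fintype_card, Nat.card_eq_fintype_card,
      Fintype.card_subtype, Fintype.card_subtype, Fintype.card_subtype,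
      ← Finset.filter_filter, ← Finset.filter_filter,
      Finset.card_filter_add_card_filter_not]
  omega

end Pool.Agent.CMTP
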