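import Mathlib
import Pool.Agent.CMTP.Final

set_option autoImplicit false
set_option linter.unusedSectionVars false
set_option linter.unusedVariables false

/-!
# CM fields of degree a power of two: norms which are not squares
-/

namespace Pool.Agent.CMTP

open NumberField Finset Polynomial
open Pool.Agent.CMT (QBar IsCMType TateWeight Divisorial TateByDivisors cc cc_cc comp_cc idx
  mem_idx divisorial_of_count)
open scoped BigOperators

/-- an element whose square is a rational number which is not a square is conjugate to its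
negative -/
theorem exists_neg (δ : QBar) (N : ℚ) (hδ : δ ^ 2 = (N : QBar)) (hN : ¬ IsSquare N) :
    ∃ τ : QBar ≃+* QBar, τ δ = - δ := by
  have halg : Algebra.IsAlgebraic ℚ QBar := isAlgebraic_QBar ℚ
  have hirr : Irreducible (X ^ 2 - C N : ℚ[X]) := by
    refine X_pow_sub_C_irreducible_of_prime Nat.prime_two fun b hb => hN ⟨b, ?_⟩
    rw [← hb, sq]
  have hmon : (X ^ 2 - C N : ℚ[X]).Monic := monic_X_pow_sub_C N (by norm_num)
  have h1 : X ^ 2 - C N = minpoly ℚ δ := by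
    refine minpoly.eq_of_irreducible_of_monic hirr ?_ hmon
    simp [hδ]
  have h2 : X ^ 2 - C N = minpoly ℚ (-δ) := by
    refine minpoly.eq_of_irreducible_of_monic hirr ?_ hmon
    simp [hδ]
  have hnorm : Normal ℚ QBar := by
    exact normal_iff.2 fun x => ⟨(halg.isAlgebraic x).isIntegral, IsAlgClosed.splits _⟩
  have h3 : IsConjRoot ℚ (-δ) δ := (h2.symm.trans h1 : minpoly ℚ (-δ) = minpoly ℚ δ)
  obtain ⟨σ, hσ⟩ := isConjRoot_iff_exists_algEquiv.1 h3
  exact ⟨(σ : QBar ≃+* QBar), hσ⟩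

variable {K : Type} [Field K] [NumberField K] [IsCMField K]

theorem ndeg_of_norm (n : ℕ) (hn : 1 ≤ n) (hK : Module.finrank ℚ K = 2 ^ (n + 1)) (ε : K)
    (hc : IsCMField.complexConj K ε = -ε) (hN : ¬ IsSquare (Algebra.norm ℚ ε))
    (Φ : Finset (K →+* QBar)) (hΦ : IsCMType K Φ) : NDeg (HG K) cc Φ := by
  classical
  have hcc : ∀ φ : K →+* QBar, cc φ ε = - φ ε := by
    intro φ
    rw [cc_apply, hc, map_neg]
  have hcard : Φ.card = 2 ^ n := by
    have h1 := half_card_eq cc cc_cc hΦ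
    rw [card_emb, hK, pow_succ] at h1
    omega
  set δ : QBar := ∏ φ ∈ Φ, φ ε with hδ
  -- the norm
  have hnorm : δ ^ 2 = ((Algebra.norm ℚ ε : ℚ) : QBar) := by
    have h1 : (algebraMap ℚ QBar (Algebra.norm ℚ ε)) = ∏ σ : K →ₐ[ℚ] QBar, σ ε :=
      Algebra.norm_eq_prod_embeddings ℚ QBar ε
    have h2 : ∏ σ : K →ₐ[ℚ] QBar, σ ε = ∏ φ : K →+* QBar, φ ε := by
      refine (Fintype.prod_equiv (RingHom.equivRatAlgHom K QBar) _ _ fun φ => ?_).symm
      rfl
    have h3 : ∏ φ : K →+* QBar, φ ε = (∏ φ ∈ Φ, φ ε) * ∏ φ ∈ Φᶜ, φ ε :=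
      (Finset.prod_mul_prod_compl Φ _).symm
    have h4 : ∏ φ ∈ Φᶜ, φ ε = ∏ φ ∈ Φ, (- φ ε) := by
      refine Finset.prod_bij' (fun φ _ => cc φ) (fun φ _ => cc φ) ?_ ?_ ?_ ?_ ?_
      · intro φ hφ
        rw [Finset.mem_compl] at hφ
        by_contra h3
        exact hφ ((hΦ φ).2 h3)
      · intro φ hφ
        rw [Finset.mem_compl]
        exact (hΦ φ).1 hφ
      · intro φ _
        exact cc_cc φ
      · intro φ _
        exact cc_cc φ
      · intro φ _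
        rw [hcc, neg_neg]
    have h5 : ∏ φ ∈ Φ, (- φ ε) = ∏ φ ∈ Φ, φ ε := by
      rw [Finset.prod_neg, hcard]
      have h6 : Even (2 ^ n) := (Nat.even_pow.2 ⟨even_two, by omega⟩)
      rw [h6.neg_one_pow, one_mul]
    rw [h2, h3, h4, h5] at h1
    rw [sq, ← h1]
    rfl
  obtain ⟨τ, hτ⟩ := exists_neg δ _ hnorm hN
  have hδ0 : δ ≠ 0 := by
    intro h
    apply hN
    have h1 : ((Algebra.norm ℚ ε : ℚ) : QBar) = 0 := by rw [← hnorm, h]; ring
    have h2 : Algebra.norm ℚ ε = 0 := by exact_mod_cast h1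
    rw [h2]
    exact ⟨0, by ring⟩
  set Ψ : Finset (K →+* QBar) := Φ.image (toPerm K τ) with hΨdef
  have hΨ : HalfX cc Ψ := by
    intro φ
    have e : ∀ ψ, ψ ∈ Ψ ↔ ((toPerm K τ)⁻¹ : Equiv.Perm (K →+* QBar)) ψ ∈ Φ := by
      intro ψ
      rw [hΨdef, Finset.mem_image]
      constructor
      · rintro ⟨z, hz, rfl⟩
        simpa using hz
      · intro hy
        exact ⟨_, hy, by simp⟩
    rw [e, e, ← hg_cc _ ((HG K).inv_mem ⟨τ, rfl⟩)]
    exact hΦ _
  have hτδ : τ δ = ∏ φ ∈ Ψ, φ ε := by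
    rw [hδ, map_prod, hΨdef, Finset.prod_image (fun x _ y _ hxy => (toPerm K τ).injective hxy)]
    rfl
  have hd : ∏ φ ∈ Ψ, φ ε = (-1) ^ (Φ \ Ψ).card * δ := by
    have h1 : ∏ φ ∈ Ψ, φ ε = (∏ φ ∈ Ψ \ Φ, φ ε) * ∏ φ ∈ Φ ∩ Ψ, φ ε := by
      rw [← Finset.prod_sdiff (Finset.inter_subset_right : Φ ∩ Ψ ⊆ Ψ),
        Finset.sdiff_inter_self_right]
    have h2 : δ = (∏ φ ∈ Φ \ Ψ, φ ε) * ∏ φ ∈ Φ ∩ Ψ, φ ε := by
      rw [hδ, ← Finset.prod_sdiff (Finset.inter_subset_left : Φ ∩ Ψ ⊆ Φ),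
        Finset.sdiff_inter_self_left]
    have h3 : ∏ φ ∈ Ψ \ Φ, φ ε = ∏ φ ∈ Φ \ Ψ, (- φ ε) := by
      rw [half_sdiff cc cc_cc hΦ hΨ, Finset.prod_image]
      · exact Finset.prod_congr rfl fun φ _ => hcc φ
      · intro x _ y _ h
        rw [← cc_cc x, h, cc_cc]
    rw [h1, h3, Finset.prod_neg, h2]
    ring
  refine ndeg_of_odd (n + 1) (by rw [card_emb, hK]) (HG K) (transitive K) cc cc_cc hg_cc Φ hΦ
    (toPerm K τ) ⟨τ, rfl⟩ ?_
  rw [← Nat.not_even_iff_odd]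
  intro hev
  have hev' : Even (Φ \ Ψ).card := by
    convert hev
  rw [hd, hev'.neg_one_pow, one_mul, hτ] at hτδ
  have h1 : (2 : QBar) * δ = 0 := by linear_combination -hτδ
  rcases mul_eq_zero.1 h1 with h2 | h2
  · exact two_ne_zero h2
  · exact hδ0 h2

end Pool.Agent.CMTP
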