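import Mathlib
import Pool.Agent.CMTP.NormSq

set_option autoImplicit false

namespace Pool.Agent.CMTP.NormNotSquare

open NumberField Pool.Agent.CMT Pool.Agent.CMTP

/-- **Tate classes for CM fields of degree a power of two.** Let `K` be a CM field of degree
`2 ^ (n + 1)`, `n ≥ 1`, and `ε` in `K` with complex conjugate `-ε`. If the norm of `ε` is not the
square of a rational number, then EVERY CM type of `K` is not induced from a proper subfield, and all
Tate weights on all powers are disjoint unions of Tate weights of codimension one. -/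
theorem result : ∀ (K : Type) [Field K] [NumberField K] [IsCMField K] (n : ℕ), 1 ≤ n →
    Module.finrank ℚ K = 2 ^ (n + 1) → ∀ ε : K, IsCMField.complexConj K ε = -ε →
    ¬ IsSquare (Algebra.norm ℚ ε) → ∀ Φ : Finset (K →+* QBar), IsCMType K Φ →
    NotInduced Φ ∧ TateByDivisors Φ := by
  intro K _ _ _ n hn hK ε hc hN Φ hΦ
  have h := ndeg_of_norm n hn hK ε hc hN Φ hΦ
  exact ⟨notInduced_of_ndeg hΦ h, tateByDivisors_of_ndeg hΦ h⟩

end Pool.Agent.CMTP.NormNotSquare
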