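import Mathlib
import Pool.Agent.CMTP.Final

set_option autoImplicit false

namespace Pool.Agent.CMTP.PrimePowerDegree

open NumberField Pool.Agent.CMT Pool.Agent.CMTP

/-- **Tate classes for CM fields of degree `2 p ^ n`, without any condition on the Galois
closure.** Let `K` be a CM field of degree `2 p ^ n`, `p` prime, `p ^ n` at least 3.
(1) If `K` contains an imaginary quadratic field `ℚ(ε)`, then every CM type `Φ` of signature
`(k, p ^ n - k)` relative to `ℚ(ε)` with `k` prime to `p` is not induced from a proper subfield, and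
all Tate weights on all powers are disjoint unions of Tate weights of codimension one.
(2) For `p` odd there is (for every such `K`) a CM type `O` such that the same holds for every CM
type `Φ` for which the number of elements of `Φ ∩ O` is prime to `p`.
(3) If `p` is odd or `K` contains an imaginary quadratic field, this is the case for at least half
of all the CM types of `K`. -/
theorem result : ∀ (K : Type) [Field K] [NumberField K] [IsCMField K] (p n : ℕ), p.Prime →
    Module.finrank ℚ K = 2 * p ^ n → 3 ≤ p ^ n →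
    (∀ (ε : K) (q : ℚ), ε ≠ 0 → IsCMField.complexConj K ε = -ε → ε ^ 2 = algebraMap ℚ K q →
      ∀ (φ₀ : K →+* QBar) (Φ : Finset (K →+* QBar)), IsCMType K Φ →
        ¬ p ∣ {φ | φ ∈ Φ ∧ φ ε = φ₀ ε}.ncard → NotInduced Φ ∧ TateByDivisors Φ) ∧
    (p ≠ 2 → ∃ O : Finset (K →+* QBar), IsCMType K O ∧ ∀ Φ : Finset (K →+* QBar), IsCMType K Φ →
        ¬ p ∣ {φ | φ ∈ Φ ∧ φ ∈ O}.ncard → NotInduced Φ ∧ TateByDivisors Φ) ∧
    ((p ≠ 2 ∨ ∃ (ε : K) (q : ℚ), ε ≠ 0 ∧ IsCMField.complexConj K ε = -ε ∧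
        ε ^ 2 = algebraMap ℚ K q) →
      2 * Nat.card {Φ : Finset (K →+* QBar) // IsCMType K Φ ∧
        ¬ (NotInduced Φ ∧ TateByDivisors Φ)} ≤
      Nat.card {Φ : Finset (K →+* QBar) // IsCMType K Φ}) := by
  classical
  intro K _ _ _ p n hp hK hpn
  have good : ∀ Φ : Finset (K →+* QBar), IsCMType K Φ → NDeg (HG K) cc Φ →
      NotInduced Φ ∧ TateByDivisors Φ := fun Φ hΦ h =>
    ⟨notInduced_of_ndeg hΦ h, tateByDivisors_of_ndeg hΦ h⟩
  have h1 : ∀ (ε : K) (q : ℚ), ε ≠ 0 → IsCMField.complexConj K ε = -ε →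
      ε ^ 2 = algebraMap ℚ K q → ∀ (φ₀ : K →+* QBar) (Φ : Finset (K →+* QBar)), IsCMType K Φ →
        ¬ p ∣ (Φ ∩ Finset.univ.filter (fun φ => φ ε = φ₀ ε)).card →
        NotInduced Φ ∧ TateByDivisors Φ := fun ε q hε hc hq φ₀ Φ hΦ hk =>
    good Φ hΦ (good_of_quadratic p n hp hK hpn ε hε hc q hq φ₀ Φ hΦ hk)
  refine ⟨?_, ?_, ?_⟩
  · intro ε q hε hc hq φ₀ Φ hΦ hk
    refine h1 ε q hε hc hq φ₀ Φ hΦ ?_
    have e : {φ | φ ∈ Φ ∧ φ ε = φ₀ ε} =
        ((Φ ∩ Finset.univ.filter (fun φ => φ ε = φ₀ ε) : Finset (K →+* QBar)) :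
          Set (K →+* QBar)) := by
      ext φ
      simp
    rwa [e, Set.ncard_coe_finset] at hk
  · intro hp2
    obtain ⟨O, hO, h2⟩ := good_of_odd p n hp hp2 hK hpn
    refine ⟨O, hO, fun Φ hΦ hk => good Φ hΦ (h2 Φ hΦ ?_)⟩
    have e : {φ | φ ∈ Φ ∧ φ ∈ O} = ((Φ ∩ O : Finset (K →+* QBar)) : Set (K →+* QBar)) := by
      ext φ
      simp
    rwa [e, Set.ncard_coe_finset] at hk
  · intro hor
    by_cases hp2 : p = 2
    · obtain ⟨ε, q, hε, hc, hq⟩ := hor.resolve_left (fun h => h hp2)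
      let φ0 : K →+* QBar := ((IsAlgClosed.lift : K →ₐ[ℚ] QBar) : K →+* QBar)
      refine count_half (Finset.univ.filter (fun φ => φ ε = φ0 ε)) ?_ p hp _
        (h1 ε q hε hc hq φ0)
      have hsq : ∀ φ : K →+* QBar, φ ε ^ 2 = (q : QBar) := by
        intro φ
        rw [← map_pow, hq]
        simp
      have h0 : φ0 ε ≠ 0 := by
        intro h
        exact hε (φ0.injective (by rw [h, map_zero]))
      have hne : φ0 ε ≠ - φ0 ε := by
        intro h
        have h1 : (2 : QBar) * φ0 ε = 0 := by linear_combination h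
        rcases mul_eq_zero.1 h1 with h2 | h2
        · exact two_ne_zero h2
        · exact h0 h2
      intro φ
      rw [Finset.mem_filter, Finset.mem_filter]
      have hcc : (φ.comp (IsCMField.complexConj K : K →+* K)) ε = - φ ε := by
        show φ (IsCMField.complexConj K ε) = _
        rw [hc, map_neg]
      rw [hcc]
      simp only [Finset.mem_univ, true_and]
      rcases sq_eq_sq_iff_eq_or_eq_neg.1 ((hsq φ).trans (hsq φ0).symm) with h | h
      · rw [h]
        exact ⟨fun _ h1 => hne h1.symm, fun _ => rfl⟩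
      · rw [h, neg_neg]
        exact ⟨fun h1 => absurd h1.symm hne, fun h1 => absurd rfl h1⟩
    · obtain ⟨O, hO, h2⟩ := good_of_odd p n hp hp2 hK hpn
      exact count_half O hO p hp _ (fun Φ hΦ hk => good Φ hΦ (h2 Φ hΦ hk))

end Pool.Agent.CMTP.PrimePowerDegree
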